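import Mathlib
import Pool.Agent.H77.TF.Stm

/-!
# Module SHP: sharpness of the number of hyperplanes
-/

set_option autoImplicit false
set_option linter.unusedSectionVars false
set_option linter.unusedVariables false

open MvPolynomial Module

namespace Pool.Agent.H64.TF

open Pool.Agent.H77.TF

variable {K : Type} [Field K]

theorem card_pow (K : Type) [Field K] [Fintype K] : ∃ p n : ℕ, p.Prime ∧ CharP K p ∧
    Fintype.card K = p ^ n := by
  obtain ⟨p, hp⟩ := CharP.exists K
  obtain ⟨n, h1, h2⟩ := FiniteField.card K p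
  exact ⟨p, n, h1, hp, h2⟩

/-- the Frobenius fields are tangent to all hyperplanes -/
theorem evl_frob [Fintype K] {l : ℕ} (k : ℕ) (a : Fin l → K) :
    evl a (frob K l k) = lin a ^ (Fintype.card K ^ k) := by
  obtain ⟨p, n, hp, hc, hcard⟩ := card_pow K
  have : Fact p.Prime := ⟨hp⟩
  have : CharP (MvPolynomial (Fin l) K) p := inferInstance
  have : ExpChar (MvPolynomial (Fin l) K) p := ExpChar.prime hp
  unfold evl lin frob
  rw [hcard, ← pow_mul, sum_pow_char_pow]
  refine Finset.sum_congr rfl fun i _ => ?_
  rw [mul_pow, ← C_pow]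
  congr 2
  have h1 := FiniteField.pow_card_pow (K := K) k (a i)
  rw [hcard, ← pow_mul] at h1
  exact h1.symm

theorem lin_append {m : ℕ} (u : Fin m → K) (v : Fin 2 → K) :
    lin (Fin.append u v) = rename (Fin.castAdd 2) (lin u) +
      ∑ j, C (v j) * X (Fin.natAdd m j) := by
  unfold lin
  rw [Fin.sum_univ_add, map_sum]
  congr 1
  · refine Finset.sum_congr rfl fun i _ => ?_
    rw [Fin.append_left, map_mul, rename_C, rename_X]
  · refine Finset.sum_congr rfl fun i _ => ?_
    rw [Fin.append_right]

/-- the forms -/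
noncomputable def fm (K : Type) [Field K] (m : ℕ) :
    (Projectivization K (Fin m → K) ⊕ ({u : Fin m → K // u ≠ 0} ⊕ {u : Fin m → K // u ≠ 0})) →
      Fin (m + 2) → K
  | .inl p => Fin.append p.rep ![0, 0]
  | .inr (.inl u) => Fin.append u.1 ![1, 0]
  | .inr (.inr u) => Fin.append u.1 ![0, 1]

theorem append_smul {m : ℕ} (c : K) (u : Fin m → K) (v : Fin 2 → K) :
    c • Fin.append u v = Fin.append (c • u) (c • v) := by
  funext i
  refine Fin.addCases (fun i => ?_) (fun i => ?_) i
  · simp only [Pi.smul_apply, Fin.append_left]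
  · simp only [Pi.smul_apply, Fin.append_right]

theorem append_inj {m : ℕ} {u u' : Fin m → K} {v v' : Fin 2 → K}
    (h : Fin.append u v = Fin.append u' v') : u = u' ∧ v = v' := by
  constructor
  · funext i
    have h1 := congrFun h (Fin.castAdd 2 i)
    rwa [Fin.append_left, Fin.append_left] at h1
  · funext i
    have h1 := congrFun h (Fin.natAdd m i)
    rwa [Fin.append_right, Fin.append_right] at h1

theorem fm_ne {m : ℕ} (i) : fm K m i ≠ 0 := by
  intro h
  have h0 : (0 : Fin (m + 2) → K) = Fin.append (0 : Fin m → K) 0 := by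
    funext i
    refine Fin.addCases (fun i => ?_) (fun i => ?_) i
    · rw [Fin.append_left]; rfl
    · rw [Fin.append_right]; rfl
  rw [h0] at h
  rcases i with p | u | u
  · exact p.rep_nonzero (append_inj h).1
  · exact u.2 (append_inj h).1
  · exact u.2 (append_inj h).1

theorem fm_simple (m : ℕ) : Simple (fm K m) := by
  refine ⟨fun i => fm_ne i, ?_⟩
  rintro (p | u | u) (p' | u' | u') hij c h
  · rw [fm, fm, append_smul] at h
    obtain ⟨h1, -⟩ := append_inj h
    apply hij
    have hc : c ≠ 0 := by
      rintro rfl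
      rw [zero_smul] at h1
      exact p.rep_nonzero h1
    congr 1
    rw [← p.mk_rep, ← p'.mk_rep, Projectivization.mk_eq_mk_iff']
    exact ⟨c, h1.symm⟩
  · rw [fm, fm, append_smul] at h
    obtain ⟨h1, h2⟩ := append_inj h
    have h3 := congrFun h2 0
    simp at h3
    rw [← h3, zero_smul] at h1
    exact p.rep_nonzero h1
  · rw [fm, fm, append_smul] at h
    obtain ⟨h1, h2⟩ := append_inj h
    have h3 := congrFun h2 1
    simp at h3
    rw [← h3, zero_smul] at h1
    exact p.rep_nonzero h1
  · rw [fm, fm, append_smul] at h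
    obtain ⟨h1, h2⟩ := append_inj h
    have h3 := congrFun h2 0
    simp at h3
  · rw [fm, fm, append_smul] at h
    obtain ⟨h1, h2⟩ := append_inj h
    have h3 := congrFun h2 0
    simp at h3
    rw [← h3, one_smul] at h1
    exact hij (by rw [Subtype.ext h1])
  · rw [fm, fm, append_smul] at h
    obtain ⟨h1, h2⟩ := append_inj h
    have h3 := congrFun h2 0
    simp at h3
  · rw [fm, fm, append_smul] at h
    obtain ⟨h1, h2⟩ := append_inj h
    have h3 := congrFun h2 1
    simp at h3
  · rw [fm, fm, append_smul] at h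
    obtain ⟨h1, h2⟩ := append_inj h
    have h3 := congrFun h2 1
    simp at h3
  · rw [fm, fm, append_smul] at h
    obtain ⟨h1, h2⟩ := append_inj h
    have h3 := congrFun h2 1
    simp at h3
    rw [← h3, one_smul] at h1
    exact hij (by rw [Subtype.ext h1])

/-- the number of the forms -/
theorem card_fm [Fintype K] {m : ℕ} (hm : 1 ≤ m) :
    Nat.card (Projectivization K (Fin m → K) ⊕
      ({u : Fin m → K // u ≠ 0} ⊕ {u : Fin m → K // u ≠ 0})) =
      thr (Fintype.card K) (m + 2) - 1 := by
  classical
  have h1 : Nat.card (Projectivization K (Fin m → K)) =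
      ∑ i ∈ Finset.range m, Fintype.card K ^ i := by
    rw [Projectivization.card_of_finrank K _ (n := m) (by simp)]
    simp only [Nat.card_eq_fintype_card]
  have h2 : Nat.card {u : Fin m → K // u ≠ 0} = Fintype.card K ^ m - 1 := by
    rw [Nat.card_eq_fintype_card, Fintype.card_subtype_compl]
    simp
  rw [Nat.card_sum, Nat.card_sum, h1, h2]
  unfold thr
  have h3 : m + 2 - 2 = m := by omega
  rw [h3]
  have h4 : 1 ≤ Fintype.card K ^ m := Nat.one_le_pow _ _ Fintype.card_pos
  have h5 : ∑ i ∈ Finset.range m, Fintype.card K ^ i =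
      1 + ∑ k ∈ Finset.Ico 1 m, Fintype.card K ^ k := by
    rw [Finset.range_eq_Ico, Finset.sum_eq_sum_Ico_succ_bot (by omega)]
    simp
  rw [h5]
  omega

/-- not blocking -/
theorem fm_not (m : ℕ) : ¬ BlocksD (fm K m) := by
  intro h
  let e : Fin 2 → Fin (m + 2) → K := fun j => Fin.append 0 (Pi.single j 1)
  have he : LinearIndependent K e := by
    rw [Fintype.linearIndependent_iff]
    intro g hg j
    have h1 := congrFun hg (Fin.natAdd m j)
    rw [Finset.sum_apply] at h1
    simp only [Pi.smul_apply, e, Fin.append_right, smul_eq_mul, Pi.zero_apply] at h1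
    rw [Finset.sum_eq_single j] at h1
    · simpa using h1
    · intro i _ hij
      rw [Pi.single_eq_of_ne (Ne.symm hij), mul_zero]
    · intro hj
      exact absurd (Finset.mem_univ _) hj
  obtain ⟨i, hi⟩ := h (Submodule.span K (Set.range e)) (by
    rw [finrank_span_eq_card he, Fintype.card_fin])
  have h2 : ∀ x ∈ Submodule.span K (Set.range e), ∀ k : Fin m, x (Fin.castAdd 2 k) = 0 := by
    intro x hx k
    induction hx using Submodule.span_induction with
    | mem x hx =>
      obtain ⟨j, rfl⟩ := hx
      simp only [e, Fin.append_left]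
      rfl
    | zero => rfl
    | add x y _ _ hx hy => rw [Pi.add_apply, hx, hy, add_zero]
    | smul c x _ hx => rw [Pi.smul_apply, hx, smul_zero]
  have h3 := h2 _ hi
  rcases i with p | u | u
  · apply p.rep_nonzero
    funext k
    have h4 := h3 k
    rwa [fm, Fin.append_left] at h4
  · apply u.2
    funext k
    have h4 := h3 k
    rwa [fm, Fin.append_left] at h4
  · apply u.2
    funext k
    have h4 := h3 k
    rwa [fm, Fin.append_left] at h4

/-- the last two vector fields -/
noncomputable def wf (K : Type) [Field K] [Fintype K] (m : ℕ) (P : Fin 2 → MvPolynomial (Fin (m + 2)) K) :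
    Fin (m + 2) → Fin (m + 2) → MvPolynomial (Fin (m + 2)) K :=
  Fin.append (fun k : Fin m => frob K (m + 2) k)
    (fun j : Fin 2 => Pi.single (Fin.natAdd m j) (P j))

theorem det_wf [Fintype K] (hM : S_MDT) (m : ℕ) (P : Fin 2 → MvPolynomial (Fin (m + 2)) K) :
    ∃ c : K, c ≠ 0 ∧ (Matrix.of (wf K m P)).det =
      C c * (∏ᶠ p : Projectivization K (Fin m → K), lin (Fin.append p.rep ![0, 0])) *
        (P 0 * P 1) := by
  classical
  obtain ⟨c, hc, h1⟩ := hM K m
  refine ⟨c, hc, ?_⟩
  have : Fintype (Projectivization K (Fin m → K)) := Fintype.ofFinite _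
  rw [finprod_eq_prod_of_fintype] at h1 ⊢
  rw [← Matrix.det_submatrix_equiv_self finSumFinEquiv]
  obtain ⟨A, hA⟩ : ∃ A : Matrix (Fin m) (Fin m) (MvPolynomial (Fin (m + 2)) K), A =
    (rename (Fin.castAdd 2)).toRingHom.mapMatrix (Matrix.of fun k i : Fin m => frob K m k i) :=
    ⟨_, rfl⟩
  obtain ⟨B, hB⟩ : ∃ B : Matrix (Fin m) (Fin 2) (MvPolynomial (Fin (m + 2)) K), B =
    Matrix.of fun (k : Fin m) j => frob K (m + 2) k (Fin.natAdd m j) := ⟨_, rfl⟩
  have h2 : (Matrix.of (wf K m P)).submatrix finSumFinEquiv finSumFinEquiv =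
      Matrix.fromBlocks A B 0 (Matrix.diagonal P) := by
    ext a b
    rcases a with k | j <;> rcases b with i | i'
    · rw [Matrix.fromBlocks_apply₁₁, Matrix.submatrix_apply, Matrix.of_apply,
        finSumFinEquiv_apply_left, finSumFinEquiv_apply_left, wf, Fin.append_left, hA]
      simp [frob]
    · rw [Matrix.fromBlocks_apply₁₂, Matrix.submatrix_apply, Matrix.of_apply,
        finSumFinEquiv_apply_left, finSumFinEquiv_apply_right, wf, Fin.append_left, hB]
      rfl
    · rw [Matrix.fromBlocks_apply₂₁, Matrix.submatrix_apply, Matrix.of_apply,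
        finSumFinEquiv_apply_left, finSumFinEquiv_apply_right, wf, Fin.append_right]
      rw [Pi.single_eq_of_ne]
      · rfl
      · intro h
        have h3 := congrArg Fin.val h
        simp at h3
        omega
    · rw [Matrix.fromBlocks_apply₂₂, Matrix.submatrix_apply, Matrix.of_apply,
        finSumFinEquiv_apply_right, finSumFinEquiv_apply_right, wf, Fin.append_right]
      by_cases h : j = i'
      · rw [h, Matrix.diagonal_apply_eq, Pi.single_eq_same]
      · rw [Matrix.diagonal_apply_ne _ h, Pi.single_eq_of_ne]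
        intro h3
        have h4 := congrArg Fin.val h3
        simp only [Fin.val_natAdd] at h4
        exact h (Fin.ext (by omega))
  rw [h2, Matrix.det_fromBlocks_zero₂₁, Matrix.det_diagonal, Fin.prod_univ_two, hA,
    ← RingHom.map_det, h1]
  congr 1
  change rename (Fin.castAdd 2) (C c * ∏ p, lin (Projectivization.rep p)) = _
  rw [map_mul, rename_C, map_prod]
  congr 1
  refine Finset.prod_congr rfl fun p _ => ?_
  rw [lin_append]
  simp

theorem evl_single {l : ℕ} (a : Fin l → K) (i : Fin l) (f : MvPolynomial (Fin l) K) :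
    evl a (Pi.single i f) = C (a i) * f := by
  classical
  unfold evl
  rw [Finset.sum_eq_single i]
  · rw [Pi.single_eq_same]
  · intro j _ hj
    rw [Pi.single_eq_of_ne hj, mul_zero]
  · intro h
    exact absurd (Finset.mem_univ _) h

/-- **Module SHP.** -/
theorem shp (hS : S_SAI) (hM : S_MDT) : S_SHP := by
  classical
  intro K _ _ l hl
  obtain ⟨m, rfl⟩ : ∃ m, l = m + 2 := ⟨l - 2, by omega⟩
  have : Fintype (Projectivization K (Fin m → K)) := Fintype.ofFinite _
  have hcard := card_fm (K := K) (m := m) (by omega)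
  rw [Nat.card_eq_fintype_card] at hcard
  let e := Fintype.equivFinOfCardEq hcard
  obtain ⟨P, hP⟩ : ∃ P : Fin 2 → MvPolynomial (Fin (m + 2)) K, P =
    ![∏ u : {u : Fin m → K // u ≠ 0}, lin (Fin.append u.1 ![1, 0]),
      ∏ u : {u : Fin m → K // u ≠ 0}, lin (Fin.append u.1 ![0, 1])] := ⟨_, rfl⟩
  obtain ⟨c, hc, hdet⟩ := det_wf hM m P
  obtain ⟨b, hb⟩ := hS K (m + 2) (Fin (thr (Fintype.card K) (m + 2) - 1)) (fun i => fm K m (e.symm i))
    ⟨fun i => fm_ne _, fun i j hij c => (fm_simple m).2 _ _ (fun h => hij (e.symm.injective h)) c⟩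
    (wf K m P) c hc (fun k i => by
      show lin (fm K m (e.symm i)) ∣ evl (fm K m (e.symm i)) (wf K m P k)
      obtain ⟨j, hj⟩ : ∃ j, j = e.symm i := ⟨_, rfl⟩
      rw [← hj]
      refine Fin.addCases (fun k => ?_) (fun k => ?_) k
      · rw [wf, Fin.append_left, evl_frob]
        exact dvd_pow_self _ (pow_pos Fintype.card_pos _).ne'
      · rw [wf, Fin.append_right, evl_single]
        rcases j with p | u | u
        · rw [fm, Fin.append_right]
          have h1 : (![0, 0] : Fin 2 → K) k = 0 := by fin_cases k <;> rfl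
          rw [h1, map_zero, zero_mul]
          exact dvd_zero _
        · rw [fm, Fin.append_right]
          fin_cases k
          · rw [hP]
            refine Dvd.dvd.mul_left ?_ _
            exact Finset.dvd_prod_of_mem (fun u : {u : Fin m → K // u ≠ 0} =>
              lin (Fin.append u.1 ![1, 0])) (Finset.mem_univ u)
          · simp
        · rw [fm, Fin.append_right]
          fin_cases k
          · simp
          · rw [hP]
            refine Dvd.dvd.mul_left ?_ _
            exact Finset.dvd_prod_of_mem (fun u : {u : Fin m → K // u ≠ 0} =>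
              lin (Fin.append u.1 ![0, 1])) (Finset.mem_univ u)) (by
      rw [hdet, finprod_eq_prod_of_fintype, Equiv.prod_comp e.symm fun j => lin (fm K m j),
        Fintype.prod_sum_type, Fintype.prod_sum_type, hP, mul_assoc]
      rfl)
  refine ⟨fun i => fm K m (e.symm i), ⟨fun i => fm_ne _, fun i j hij c =>
    (fm_simple m).2 _ _ (fun h => hij (e.symm.injective h)) c⟩, Module.Free.of_basis b, ?_⟩
  intro h
  apply fm_not (K := K) m
  intro W hW
  obtain ⟨i, hi⟩ := h W hW
  exact ⟨_, hi⟩

end Pool.Agent.H64.TF
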