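import Mathlib
import Pool.Agent.H77.TF.Stm
import Pool.Agent.H64.TF.SHP

/-!
# Module CFS: the coefficients of the Frobenius fields in a homogeneous basis
-/

set_option autoImplicit false
set_option linter.unusedSectionVars false
set_option linter.unusedVariables false

open MvPolynomial Module

namespace Pool.Agent.H64.TF

open Pool.Agent.H77.TF

variable {K : Type} [Field K]

/-- the homogeneous component of the product with a homogeneous polynomial -/
theorem comp_mul {σ : Type} (f g : MvPolynomial σ K) {e n : ℕ} (hg : g.IsHomogeneous e) :
    homogeneousComponent n (f * g) =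
      (if e ≤ n then homogeneousComponent (n - e) f else 0) * g := by
  conv_lhs => rw [← sum_homogeneousComponent f, Finset.sum_mul, map_sum]
  have h1 : ∀ i, homogeneousComponent n (homogeneousComponent i f * g) =
      if n = i + e then homogeneousComponent i f * g else 0 := fun i =>
    homogeneousComponent_of_mem ((homogeneousComponent_isHomogeneous i f).mul hg)
  rw [Finset.sum_congr rfl fun i _ => h1 i]
  by_cases h : e ≤ n
  · rw [if_pos h]
    have h2 : ∀ i, (if n = i + e then homogeneousComponent i f * g else 0) =
        if i = n - e then homogeneousComponent (n - e) f * g else 0 := by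
      intro i
      by_cases h3 : i = n - e
      · rw [if_pos h3, if_pos (by omega), h3]
      · rw [if_neg h3, if_neg (by omega)]
    rw [Finset.sum_congr rfl fun i _ => h2 i, Finset.sum_ite_eq']
    by_cases h4 : n - e ∈ Finset.range (f.totalDegree + 1)
    · rw [if_pos h4]
    · rw [if_neg h4, homogeneousComponent_eq_zero, zero_mul]
      rw [Finset.mem_range] at h4
      omega
  · rw [if_neg h, zero_mul]
    refine Finset.sum_eq_zero fun i _ => ?_
    rw [if_neg (by omega)]

theorem frob_mem [Fintype K] {l : ℕ} {ν : Type} (A : ν → Fin l → K) (k : ℕ) :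
    frob K l k ∈ LD A := by
  intro i
  rw [evl_frob]
  exact dvd_pow_self _ (pow_pos Fintype.card_pos _).ne'

/-- **Module CFS.** -/
theorem cfs : S_CFS := by
  intro K _ _ l ν A e b hb
  refine ⟨fun k j => if e j ≤ Fintype.card K ^ k then
    homogeneousComponent (Fintype.card K ^ k - e j) (b.repr ⟨frob K l k, frob_mem A k⟩ j) else 0,
    fun k => ?_, fun k j h => if_neg (by omega), fun k j h => ?_⟩
  · have h1 : frob K l k = ∑ j, b.repr ⟨frob K l k, frob_mem A k⟩ j •
        (b j : Fin l → MvPolynomial (Fin l) K) := by
      have h2 := congrArg Subtype.val (b.sum_repr ⟨frob K l k, frob_mem A k⟩)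
      refine h2.symm.trans ?_
      rw [Submodule.coe_sum]
      rfl
    funext i
    have h2 := congrArg (homogeneousComponent (Fintype.card K ^ k)) (congrFun h1 i)
    have h3 : homogeneousComponent (Fintype.card K ^ k) (frob K l k i) = frob K l k i := by
      rw [homogeneousComponent_of_mem (n := Fintype.card K ^ k), if_pos rfl]
      unfold frob
      exact isHomogeneous_X_pow i _
    rw [h3, Finset.sum_apply, map_sum] at h2
    rw [h2, Finset.sum_apply]
    refine Finset.sum_congr rfl fun j _ => ?_
    rw [Pi.smul_apply, Pi.smul_apply, smul_eq_mul, smul_eq_mul]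
    exact comp_mul _ _ (hb j i)
  · simp only
    rw [if_pos h.ge, h, Nat.sub_self, homogeneousComponent_zero]
    exact ⟨_, rfl⟩

end Pool.Agent.H64.TF
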